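import Pool.Agent.H286Z.Trans.Main

set_option autoImplicit false

/-! For every `n ≥ 4` there is a `⌊(n-2)/2⌋`-transitive subset of `S_n` different from `A_n`,
from `S_n` and from the set of odd permutations. -/

open Pool.Agent.H286Z.Trans

theorem Pool.Agent.Results.MP_c60ead_co.MixedTransitiveSet.result (n : ℕ) (hn : 4 ≤ n) :
    ∃ Y : Set (Equiv.Perm (Fin n)), IsKTransitive n ((n - 2) / 2) Y ∧
      Y ≠ alternatingGroup (Fin n) ∧ Y ≠ Set.univ ∧
      Y ≠ (alternatingGroup (Fin n) : Set (Equiv.Perm (Fin n)))ᶜ :=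
  main n hn
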